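import Pool.Agent.Work.MP_9d0e17_ap.Interface
import Pool.Agent.Work.LV.A1

/-!
# Block CORE: Burgess's shift for the twisted sums
-/

set_option autoImplicit false

namespace Pool.Agent.Work.AP90.helper95

open Finset Polynomial Pool.Agent.Paley67 Pool.Agent.Work.LV Pool.Agent.Work.AP90

theorem chi_norm_le {p : ℕ} [Fact p.Prime] (a : ZMod p) : ‖((chi p a : ℤ) : ℂ)‖ ≤ 1 := by
  by_cases h : a = 0
  · have h0 : chi p a = 0 := by rw [h]; exact MulChar.map_zero _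
    rw [h0]; simp
  · have : chi p a = 1 ∨ chi p a = -1 := quadraticChar_dichotomy h
    rcases this with h1 | h1 <;> rw [h1] <;> simp

theorem chi_map_mul {p : ℕ} [Fact p.Prime] (a b : ZMod p) :
    ((chi p (a * b) : ℤ) : ℂ) = ((chi p a : ℤ) : ℂ) * ((chi p b : ℤ) : ℂ) := by
  rw [← Int.cast_mul]
  congr 1
  exact map_mul (quadraticChar (ZMod p)) a b

theorem psi_norm {p : ℕ} [Fact p.Prime] (a : ZMod p) : ‖psi p a‖ = 1 :=
  AddChar.norm_apply _ _

theorem one_a {p : ℕ} [Fact p.Prime] (c β : ZMod p) (M : ℤ) (N B Y a : ℕ) (η : ℝ)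
    (hap : a.Coprime p) (haY : a ≤ Y)
    (hη : ∀ b ∈ Icc 1 B, ‖psi p (c * (a : ZMod p) * (b : ZMod p)) -
      psi p (β * (b : ZMod p))‖ ≤ η) :
    (B : ℝ) * (‖SS p c (M : ZMod p) N‖ - 2 * Y * B - N * η) ≤
      ∑ n ∈ Icc 1 N, TB p β B (((M : ZMod p) + (n : ZMod p)) * (a : ZMod p)⁻¹) := by
  have hinv : (a : ZMod p) * (a : ZMod p)⁻¹ = 1 := ZMod.coe_mul_inv_eq_one a hap
  set f : ℕ → ℂ := fun n => ((chi p ((M : ZMod p) + (n : ZMod p)) : ℤ) : ℂ) *
    psi p (c * (n : ZMod p)) with hf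
  set g : ℕ → ℕ → ℂ := fun b n => ((chi p ((M : ZMod p) + (n : ZMod p) +
    (a : ZMod p) * (b : ZMod p)) : ℤ) : ℂ) * psi p (c * (n : ZMod p)) *
      psi p (β * (b : ZMod p)) with hg
  have hf1 : ∀ n, ‖f n‖ ≤ 1 := by
    intro n
    rw [hf]
    simp only
    rw [norm_mul, psi_norm, mul_one]
    exact chi_norm_le _
  have hSS : SS p c (M : ZMod p) N = ∑ n ∈ Icc 1 N, f n := rfl
  have h1 : ∀ b ∈ Icc 1 B, ‖SS p c (M : ZMod p) N - ∑ n ∈ Icc 1 N, g b n‖ ≤
      2 * Y * B + N * η := by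
    intro b hb
    have hηb := hη b hb
    rw [mem_Icc] at hb
    have e1 := shift_le f hf1 N (a * b)
    have e2 : ‖∑ n ∈ Icc 1 N, f (n + a * b) - ∑ n ∈ Icc 1 N, g b n‖ ≤ N * η := by
      rw [← Finset.sum_sub_distrib]
      refine (norm_sum_le _ _).trans ?_
      have : ∀ n ∈ Icc 1 N, ‖f (n + a * b) - g b n‖ ≤ η := by
        intro n _
        have e3 : f (n + a * b) - g b n = ((chi p ((M : ZMod p) + (n : ZMod p) +
            (a : ZMod p) * (b : ZMod p)) : ℤ) : ℂ) * psi p (c * (n : ZMod p)) *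
              (psi p (c * (a : ZMod p) * (b : ZMod p)) - psi p (β * (b : ZMod p))) := by
          rw [hf, hg]
          simp only
          have e4 : ((n + a * b : ℕ) : ZMod p) = (n : ZMod p) + (a : ZMod p) * (b : ZMod p) := by
            push_cast; ring
          rw [e4, ← add_assoc, mul_add, AddChar.map_add_eq_mul, ← mul_assoc c]
          ring
        rw [e3, norm_mul, norm_mul, psi_norm, mul_one]
        calc _ ≤ 1 * η := mul_le_mul (chi_norm_le _) hηb (norm_nonneg _) zero_le_one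
          _ = η := one_mul _
      refine (Finset.sum_le_sum this).trans ?_
      simp
    calc ‖SS p c (M : ZMod p) N - ∑ n ∈ Icc 1 N, g b n‖
        = ‖(∑ n ∈ Icc 1 N, f n - ∑ n ∈ Icc 1 N, f (n + a * b)) +
            (∑ n ∈ Icc 1 N, f (n + a * b) - ∑ n ∈ Icc 1 N, g b n)‖ := by
          rw [hSS]; congr 1; ring
      _ ≤ 2 * ((a * b : ℕ) : ℝ) + N * η := (norm_add_le _ _).trans (add_le_add e1 e2)
      _ ≤ 2 * Y * B + N * η := by
          push_cast
          rw [mul_assoc]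
          gcongr
          exact_mod_cast hb.2
  have h2 : (B : ℂ) * SS p c (M : ZMod p) N =
      ∑ b ∈ Icc 1 B, (SS p c (M : ZMod p) N - ∑ n ∈ Icc 1 N, g b n) +
        ∑ b ∈ Icc 1 B, ∑ n ∈ Icc 1 N, g b n := by
    rw [← Finset.sum_add_distrib]
    simp
  have h3 : ‖∑ b ∈ Icc 1 B, (SS p c (M : ZMod p) N - ∑ n ∈ Icc 1 N, g b n)‖ ≤
      B * (2 * Y * B + N * η) := by
    refine (norm_sum_le _ _).trans ((Finset.sum_le_sum h1).trans (le_of_eq ?_))
    rw [Finset.sum_const, Nat.card_Icc, Nat.add_sub_cancel, nsmul_eq_mul]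
  have h4 : ‖∑ b ∈ Icc 1 B, ∑ n ∈ Icc 1 N, g b n‖ ≤
      ∑ n ∈ Icc 1 N, TB p β B (((M : ZMod p) + (n : ZMod p)) * (a : ZMod p)⁻¹) := by
    rw [Finset.sum_comm]
    refine (norm_sum_le _ _).trans (Finset.sum_le_sum fun n _ => ?_)
    have e : ∑ b ∈ Icc 1 B, g b n =
        (((chi p (a : ZMod p) : ℤ) : ℂ) * psi p (c * (n : ZMod p))) * ∑ b ∈ Icc 1 B,
          ((chi p (((M : ZMod p) + (n : ZMod p)) * (a : ZMod p)⁻¹ + (b : ZMod p)) : ℤ) : ℂ) *
            psi p (β * (b : ZMod p)) := by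
      rw [Finset.mul_sum]
      apply Finset.sum_congr rfl
      intro b _
      rw [hg]
      simp only
      have e5 : (M : ZMod p) + (n : ZMod p) + (a : ZMod p) * (b : ZMod p) =
          (a : ZMod p) * (((M : ZMod p) + (n : ZMod p)) * (a : ZMod p)⁻¹ + (b : ZMod p)) := by
        linear_combination -((M : ZMod p) + (n : ZMod p)) * hinv
      rw [e5, chi_map_mul]
      ring
    rw [e, norm_mul, norm_mul, psi_norm, mul_one]
    unfold TB
    calc ‖((chi p (a : ZMod p) : ℤ) : ℂ)‖ * _ ≤ 1 * _ :=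
          mul_le_mul_of_nonneg_right (chi_norm_le _) (norm_nonneg _)
      _ = _ := one_mul _
  have h5 : ‖(B : ℂ) * SS p c (M : ZMod p) N‖ ≤ B * (2 * Y * B + N * η) +
      ∑ n ∈ Icc 1 N, TB p β B (((M : ZMod p) + (n : ZMod p)) * (a : ZMod p)⁻¹) := by
    rw [h2]
    exact (norm_add_le _ _).trans (add_le_add h3 h4)
  rw [norm_mul, Complex.norm_natCast] at h5
  linarith

theorem stmt_CORE : Stmt_CORE := by
  intro p hp c β P 𝓜 N B Y V η hP hη hV
  have : NeZero p := ⟨hp.out.ne_zero⟩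
  rw [sum_vv P 𝓜 N (fun a ha => (hP a ha).1)]
  have hmain : ∀ a ∈ P, ∀ M ∈ 𝓜, (B : ℝ) * (V - 2 * Y * B - N * η) ≤
      ∑ n ∈ Icc 1 N, TB p β B (((M : ZMod p) + (n : ZMod p)) * (a : ZMod p)⁻¹) := by
    intro a ha M hM
    refine le_trans ?_ (one_a c β M N B Y a η (hP a ha).1 (hP a ha).2 (hη a ha))
    have := hV M hM
    gcongr
  calc (P.card : ℝ) * 𝓜.card * (B * (V - 2 * Y * B - N * η))
      = ∑ a ∈ P, ∑ M ∈ 𝓜, (B : ℝ) * (V - 2 * Y * B - N * η) := by
        simp only [Finset.sum_const, nsmul_eq_mul]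
        ring
    _ ≤ _ := Finset.sum_le_sum fun a ha => Finset.sum_le_sum fun M hM => hmain a ha M hM

end Pool.Agent.Work.AP90.helper95
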