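import Pool.Agent.Work.MP_9d0e17_ap.Interface
import Pool.Agent.Work.MP_9d0e17_ap_helper95.CORE
import Pool.Agent.Work.LV.MCount

/-!
# Block M: the `2r`-th moment of twisted short sums
-/

set_option autoImplicit false

namespace Pool.Agent.Work.AP90.helper95

open Finset Polynomial Pool.Agent.Paley67 Pool.Agent.Work.LV Pool.Agent.Work.AP90

/-- the coefficient of the expansion -/
noncomputable def uu {p : ℕ} [Fact p.Prime] (β : ZMod p) (r : ℕ) : Fin r ⊕ Fin r → ℕ → ℂ :=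
  Sum.elim (fun _ b => psi p (β * (b : ZMod p)))
    (fun _ b => (starRingEnd ℂ) (psi p (β * (b : ZMod p))))

theorem uu_norm {p : ℕ} [Fact p.Prime] (β : ZMod p) (r : ℕ) (i : Fin r ⊕ Fin r) (b : ℕ) :
    ‖uu β r i b‖ = 1 := by
  rcases i with i | i
  · exact psi_norm _
  · show ‖(starRingEnd ℂ) (psi p (β * (b : ZMod p)))‖ = 1
    rw [Complex.norm_conj]
    exact psi_norm _

theorem chi_map_prod {p : ℕ} [Fact p.Prime] {I : Type} (s : Finset I) (f : I → ZMod p) :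
    ((chi p (∏ i ∈ s, f i) : ℤ) : ℂ) = ∏ i ∈ s, ((chi p (f i) : ℤ) : ℂ) := by
  classical
  induction s using Finset.induction_on with
  | empty =>
    rw [prod_empty, prod_empty]
    have : chi p 1 = 1 := map_one (quadraticChar (ZMod p))
    rw [this]; simp
  | insert i s hi ih => rw [prod_insert hi, prod_insert hi, chi_map_mul, ih]

theorem moment_expand (r : ℕ) {p : ℕ} [Fact p.Prime] (β : ZMod p) (B : ℕ) :
    ((∑ x : ZMod p, TB p β B x ^ (2 * r) : ℝ) : ℂ) =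
      ∑ h ∈ Fintype.piFinset (fun _ : Fin r ⊕ Fin r => Icc 1 B),
        (∏ i, uu β r i (h i)) *
          ∑ x : ZMod p, ((chi p (∏ i, (x + (h i : ZMod p))) : ℤ) : ℂ) := by
  simp only [Finset.mul_sum]
  rw [sum_comm]
  push_cast
  apply sum_congr rfl
  intro x _
  have h1 : ((TB p β B x ^ (2 * r) : ℝ) : ℂ) =
      ∏ i : Fin r ⊕ Fin r, ∑ b ∈ Icc 1 B, ((chi p (x + (b : ZMod p)) : ℤ) : ℂ) * uu β r i b := by
    rw [Fintype.prod_sum_type]
    simp only [uu, Sum.elim_inl, Sum.elim_inr, prod_const, card_univ, Fintype.card_fin]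
    have h2 : ∑ b ∈ Icc 1 B, ((chi p (x + (b : ZMod p)) : ℤ) : ℂ) *
          (starRingEnd ℂ) (psi p (β * (b : ZMod p))) =
        (starRingEnd ℂ) (∑ b ∈ Icc 1 B, ((chi p (x + (b : ZMod p)) : ℤ) : ℂ) *
          psi p (β * (b : ZMod p))) := by
      rw [map_sum]
      refine sum_congr rfl fun b _ => ?_
      rw [map_mul (starRingEnd ℂ), map_intCast]
    rw [h2, ← mul_pow, Complex.mul_conj, Complex.normSq_eq_norm_sq, TB, pow_mul]
    push_cast
    rfl
  push_cast at h1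
  rw [h1, prod_univ_sum]
  apply sum_congr rfl
  intro h _
  rw [chi_map_prod, ← prod_mul_distrib]
  apply prod_congr rfl
  intro i _
  ring

theorem trivial_G {p : ℕ} [Fact p.Prime] {I : Type} [Fintype I] (h : I → ℕ) :
    ‖∑ x : ZMod p, ((chi p (∏ i, (x + (h i : ZMod p))) : ℤ) : ℂ)‖ ≤ p := by
  refine (norm_sum_le _ _).trans ((Finset.sum_le_sum fun x _ => chi_norm_le _).trans ?_)
  simp [ZMod.card]

theorem weil_G {p : ℕ} [Fact p.Prime] {I : Type} [Fintype I] [DecidableEq I] (h : I → ℕ) (C : ℝ)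
    (B : ℕ) (hB : B < p) (hh : ∀ i, h i ∈ Icc 1 B) (i₀ : I)
    (hodd : Odd (∑ i, if h i = h i₀ then 1 else 0))
    (hW : ∀ F : (ZMod p)[X], F.natDegree ≤ Fintype.card I →
      (∃ α : ZMod p, Odd (F.rootMultiplicity α)) →
      |∑ x : ZMod p, (chi p (F.eval x) : ℝ)| ≤ C * Real.sqrt p) :
    ‖∑ x : ZMod p, ((chi p (∏ i, (x + (h i : ZMod p))) : ℤ) : ℂ)‖ ≤ C * Real.sqrt p := by
  set F : (ZMod p)[X] := ∏ i, (X - Polynomial.C (-(h i : ZMod p))) ^ 1 with hF
  have hFe : ∀ x, F.eval x = ∏ i, (x + (h i : ZMod p)) := by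
    intro x
    rw [hF, eval_prod]
    apply prod_congr rfl
    intro i _
    rw [pow_one, eval_sub, eval_X, eval_C, sub_neg_eq_add]
  have h1 := hW F ?_ ⟨-(h i₀ : ZMod p), ?_⟩
  · have h2 : ∑ x : ZMod p, ((chi p (∏ i, (x + (h i : ZMod p))) : ℤ) : ℂ) =
        ((∑ x : ZMod p, (chi p (F.eval x) : ℝ) : ℝ) : ℂ) := by
      push_cast
      apply sum_congr rfl
      intro x _
      rw [hFe]
    rw [h2, Complex.norm_real, Real.norm_eq_abs]
    exact h1
  · rw [hF]
    refine (natDegree_prod_le _ _).trans ?_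
    refine (sum_le_sum (g := fun _ => 1) fun i _ => ?_).trans ?_
    · rw [pow_one, natDegree_X_sub_C]
    · simp
  · rw [hF, Pool.Agent.Work.LV.M.rootMultiplicity_prod_aux]
    have h3 : ∀ i, (-(h i : ZMod p) = -(h i₀ : ZMod p)) ↔ h i = h i₀ := by
      intro i
      rw [neg_inj]
      constructor
      · intro h4
        rw [ZMod.natCast_eq_natCast_iff] at h4
        have e1 := mem_Icc.1 (hh i)
        have e2 := mem_Icc.1 (hh i₀)
        exact Nat.ModEq.eq_of_lt_of_lt h4 (by omega) (by omega)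
      · intro h4; rw [h4]
    simp only [h3]
    exact hodd

theorem stmt_M (hW : Stmt_W) : Stmt_M := by
  classical
  intro r hr
  obtain ⟨C₀, hC₀, hWC⟩ := hW (2 * r)
  refine ⟨(2 * r) ^ (2 * r) + C₀, by positivity, ?_⟩
  intro p hp hp2 B hB β
  have hp0 : (0 : ℝ) ≤ p := Nat.cast_nonneg p
  set H := Fintype.piFinset (fun _ : Fin r ⊕ Fin r => Icc 1 B) with hH
  set G : ((Fin r ⊕ Fin r) → ℕ) → ℂ := fun h =>
    ∑ x : ZMod p, ((chi p (∏ i, (x + (h i : ZMod p))) : ℤ) : ℂ) with hG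
  have hI : Fintype.card (Fin r ⊕ Fin r) = 2 * r := by
    rw [Fintype.card_sum, Fintype.card_fin]; ring
  set Deg : ((Fin r ⊕ Fin r) → ℕ) → Prop := fun h =>
    ∀ i₀, ¬ Odd (∑ i, if h i = h i₀ then 1 else 0) with hDeg
  have hexp : ∑ x : ZMod p, TB p β B x ^ (2 * r) = ‖∑ h ∈ H, (∏ i, uu β r i (h i)) * G h‖ := by
    rw [← moment_expand r β B, Complex.norm_real, Real.norm_of_nonneg]
    exact sum_nonneg fun x _ => pow_nonneg (norm_nonneg _) _
  rw [hexp]
  have hn : ∀ h, ‖(∏ i, uu β r i (h i)) * G h‖ = ‖G h‖ := by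
    intro h
    rw [norm_mul, norm_prod]
    simp [uu_norm]
  have h1 : ‖∑ h ∈ H, (∏ i, uu β r i (h i)) * G h‖ ≤
      ∑ h ∈ H.filter Deg, ‖G h‖ + ∑ h ∈ H.filter (fun h => ¬ Deg h), ‖G h‖ := by
    rw [sum_filter_add_sum_filter_not]
    refine (norm_sum_le _ _).trans (le_of_eq ?_)
    exact sum_congr rfl fun h _ => hn h
  have hdeg : ∑ h ∈ H.filter Deg, ‖G h‖ ≤ (2 * r) ^ (2 * r) * (B : ℝ) ^ r * p := by
    have h2 : ∀ h ∈ H.filter Deg, ‖G h‖ ≤ (p : ℝ) := fun h _ => trivial_G h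
    refine (sum_le_card_nsmul _ _ _ h2).trans ?_
    rw [nsmul_eq_mul]
    apply mul_le_mul_of_nonneg_right _ hp0
    have h3 := Pool.Agent.Work.LV.M.card_twice r B hI hr Deg ?_
    · exact_mod_cast h3
    · intro h hh i
      by_contra hcon
      push Not at hcon
      apply hh i
      have h5 : ∑ j, (if h j = h i then 1 else 0) = 1 := by
        rw [sum_eq_single i]
        · simp
        · intro j _ hji
          rw [if_neg (hcon j hji)]
        · intro h; exact absurd (mem_univ i) h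
      rw [h5]
      exact odd_one
  have hnon : ∑ h ∈ H.filter (fun h => ¬ Deg h), ‖G h‖ ≤
      C₀ * Real.sqrt p * (B : ℝ) ^ (2 * r) := by
    have h2 : ∀ h ∈ H.filter (fun h => ¬ Deg h), ‖G h‖ ≤ C₀ * Real.sqrt p := by
      intro h hh
      rw [mem_filter] at hh
      obtain ⟨hh1, hh⟩ := hh
      rw [hDeg] at hh
      push Not at hh
      obtain ⟨i₀, hi₀⟩ := hh
      rw [hH, Fintype.mem_piFinset] at hh1
      refine weil_G h C₀ B hB hh1 i₀ hi₀ ?_
      rw [hI]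
      exact hWC p hp2
    refine (sum_le_card_nsmul _ _ _ h2).trans ?_
    rw [nsmul_eq_mul, mul_comm]
    apply mul_le_mul_of_nonneg_left _ (by positivity)
    have h3 : (H.filter (fun h => ¬ Deg h)).card ≤ B ^ (2 * r) := by
      refine (card_filter_le _ _).trans ?_
      rw [hH, Fintype.card_piFinset, prod_const, Nat.card_Icc, Nat.add_sub_cancel, card_univ, hI]
    exact_mod_cast h3
  have hB0 : (0 : ℝ) ≤ (B : ℝ) ^ (2 * r) := by positivity
  have hB1 : (0 : ℝ) ≤ (B : ℝ) ^ r := by positivity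
  have hsq : 0 ≤ Real.sqrt p := Real.sqrt_nonneg _
  have e1 : 0 ≤ (2 * (r : ℝ)) ^ (2 * r) * ((B : ℝ) ^ (2 * r) * Real.sqrt p) := by positivity
  have e2 : 0 ≤ C₀ * ((B : ℝ) ^ r * p) := by positivity
  calc ‖∑ h ∈ H, (∏ i, uu β r i (h i)) * G h‖ ≤ (2 * r) ^ (2 * r) * (B : ℝ) ^ r * p +
        C₀ * Real.sqrt p * (B : ℝ) ^ (2 * r) := by linarith
    _ ≤ ((2 * r) ^ (2 * r) + C₀) * ((B : ℝ) ^ r * p + (B : ℝ) ^ (2 * r) * Real.sqrt p) := by
        nlinarith

end Pool.Agent.Work.AP90.helper95
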