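import Pool.Agent.Work.MP_9d0e17_ap.Interface

/-!
# Block W: the Weil bound for the quadratic character, from Stepanov's count
-/

set_option autoImplicit false

namespace Pool.Agent.Work.AP90.helper95

open Finset Polynomial Pool.Agent.Paley67 Pool.Agent.Work.LV Pool.Agent.Work.AP90

theorem chi_values {p : ℕ} [Fact p.Prime] (a : ZMod p) : chi p a = 0 ∨ chi p a = 1 ∨ chi p a = -1 := by
  by_cases h : a = 0
  · left; rw [h]; exact MulChar.map_zero _
  · right; exact quadraticChar_dichotomy h

theorem stmt_W (hWB : Stmt_WB) : Stmt_W := by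
  classical
  intro d
  obtain ⟨C, hC0, hC⟩ := hWB d
  refine ⟨2 * C + d, by positivity, ?_⟩
  intro p hp hp2 F hF hα
  have hp' : p.Prime := hp.out
  have hp1 : (1 : ℝ) ≤ p := by exact_mod_cast hp'.one_lt.le
  have hsq1 : 1 ≤ Real.sqrt p := Real.one_le_sqrt.2 hp1
  have hsq2 : Real.sqrt p * Real.sqrt p = p := Real.mul_self_sqrt (by linarith)
  have habs : ∀ a : ZMod p, |(chi p a : ℝ)| ≤ 1 := by
    intro a
    rcases chi_values a with h | h | h <;> rw [h] <;> norm_num
  by_cases hpd : p ≤ d
  · have h1 : |∑ x : ZMod p, (chi p (F.eval x) : ℝ)| ≤ p := by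
      refine (Finset.abs_sum_le_sum_abs _ _).trans ?_
      refine (Finset.sum_le_sum fun x _ => habs _).trans ?_
      simp [ZMod.card]
    have h2 : (p : ℝ) ≤ d := by exact_mod_cast hpd
    calc |∑ x : ZMod p, (chi p (F.eval x) : ℝ)| ≤ p := h1
      _ ≤ d * Real.sqrt p := by nlinarith
      _ ≤ (2 * C + d) * Real.sqrt p := by nlinarith
  · push Not at hpd
    obtain ⟨α, hα⟩ := hα
    have hF0 : F ≠ 0 := by
      rintro rfl
      rw [rootMultiplicity_zero] at hα
      exact absurd hα (by decide)
    -- a nonroot
    obtain ⟨c, hc⟩ : ∃ c : ZMod p, F.eval c ≠ 0 := by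
      by_contra hcon
      push Not at hcon
      have h1 : (univ : Finset (ZMod p)) ⊆ F.roots.toFinset := by
        intro x _
        rw [Multiset.mem_toFinset, mem_roots hF0]
        exact hcon x
      have h2 := (card_le_card h1).trans (Multiset.toFinset_card_le _)
      rw [card_univ, ZMod.card] at h2
      have h3 := F.card_roots'
      omega
    set G : (ZMod p)[X] := F.comp (X + Polynomial.C c) with hG
    have hGe : ∀ x, G.eval x = F.eval (x + c) := by
      intro x
      rw [hG, eval_comp, eval_add, eval_X, eval_C]
    have hG0 : G.eval 0 ≠ 0 := by rw [hGe, zero_add]; exact hc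
    have hGd : G.natDegree ≤ d := by
      rw [hG, natDegree_comp, natDegree_X_add_C, mul_one]
      exact hF
    have hGα : Odd (G.rootMultiplicity (α - c)) := by
      have : G.rootMultiplicity (α - c) = F.rootMultiplicity α := by
        rw [rootMultiplicity_eq_rootMultiplicity, hG, comp_assoc]
        have h1 : (X + Polynomial.C c).comp (X + Polynomial.C (α - c)) = X + Polynomial.C α := by
          rw [add_comp, X_comp, C_comp, add_assoc, ← Polynomial.C_add, sub_add_cancel]
        rw [h1, ← rootMultiplicity_eq_rootMultiplicity]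
      rw [this]; exact hα
    have hodd : p % 2 = 1 := by
      rcases hp'.eq_two_or_odd with h | h
      · exact absurd h hp2
      · exact h
    have hm : 2 * (p / 2) + 1 = p := by omega
    have hcount := fun a => hC p G (p / 2) (α - c) hGd hG0 hGα hm a
    have h11 : (1 : ZMod p) ≠ -1 := by
      have : Fact (2 < p) := ⟨lt_of_le_of_ne hp'.two_le hp2.symm⟩
      exact (ZMod.neg_one_ne_one).symm
    have h10 : (1 : ZMod p) ≠ 0 := one_ne_zero
    -- translate the sum
    have hsum : ∑ x : ZMod p, (chi p (F.eval x) : ℝ) = ∑ x : ZMod p, (chi p (G.eval x) : ℝ) := by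
      rw [← Equiv.sum_comp (Equiv.addRight c) (fun x => (chi p (F.eval x) : ℝ))]
      apply Finset.sum_congr rfl
      intro x _
      rw [hGe]
      rfl
    rw [hsum]
    set N1 := univ.filter fun x : ZMod p => G.eval x ^ (p / 2) = 1 with hN1
    set N2 := univ.filter fun x : ZMod p => G.eval x ^ (p / 2) = -1 with hN2
    set N0 := univ.filter fun x : ZMod p => G.eval x = 0 with hN0
    have hval : ∀ y : ZMod p, (chi p y : ℝ) = (if y ^ (p / 2) = 1 then (1 : ℝ) else 0) -
        (if y ^ (p / 2) = -1 then (1 : ℝ) else 0) := by
      intro y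
      have := chi_cast hp2 y
      rcases chi_values y with h | h | h
      · rw [h] at this ⊢
        rw [← this]
        simp
      · rw [h] at this ⊢
        rw [← this]
        simp [h11]
      · rw [h] at this ⊢
        rw [← this]
        simp [h11.symm]
    have hone : ∀ y : ZMod p, (1 : ℝ) = (if y ^ (p / 2) = 1 then (1 : ℝ) else 0) +
        (if y ^ (p / 2) = -1 then (1 : ℝ) else 0) + (if y = 0 then (1 : ℝ) else 0) := by
      intro y
      have := chi_cast hp2 y
      by_cases hy : y = 0
      · subst hy
        have h0 : chi p (0 : ZMod p) = 0 := MulChar.map_zero _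
        rw [h0] at this
        rw [← this]
        simp
      · rcases quadraticChar_dichotomy hy with h | h
        · have h' : chi p y = 1 := h
          rw [h'] at this
          rw [← this]
          simp [h11, hy]
        · have h' : chi p y = -1 := h
          rw [h'] at this
          rw [← this]
          simp [h11.symm, hy]
    have hs1 : ∑ x : ZMod p, (chi p (G.eval x) : ℝ) = N1.card - N2.card := by
      rw [Finset.sum_congr rfl fun x _ => hval (G.eval x), Finset.sum_sub_distrib]
      simp [hN1, hN2]
    have hs2 : (p : ℝ) = N1.card + N2.card + N0.card := by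
      have h1 : (p : ℝ) = ∑ x : ZMod p, (1 : ℝ) := by simp [ZMod.card]
      rw [h1, Finset.sum_congr rfl fun x _ => hone (G.eval x), Finset.sum_add_distrib,
        Finset.sum_add_distrib]
      simp [hN1, hN2, hN0]
    have hG00 : G ≠ 0 := by
      rintro h
      rw [h] at hG0
      simp at hG0
    have hN0d : (N0.card : ℝ) ≤ d := by
      have h1 : N0 ⊆ G.roots.toFinset := by
        intro x hx
        rw [hN0, mem_filter] at hx
        rw [Multiset.mem_toFinset, mem_roots hG00]
        exact hx.2
      have h2 := (card_le_card h1).trans (Multiset.toFinset_card_le _)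
      have h3 := G.card_roots'
      have : N0.card ≤ d := by omega
      exact_mod_cast this
    have e1 := hcount 1
    have e2 := hcount (-1)
    rw [← hN1] at e1
    rw [← hN2] at e2
    rw [hs1, abs_le]
    have hd0 : (0 : ℝ) ≤ d := Nat.cast_nonneg d
    have e3 : (d : ℝ) ≤ d * Real.sqrt p := by nlinarith
    constructor <;> nlinarith

end Pool.Agent.Work.AP90.helper95
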